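import Mathlib

/-!
# EKR property of the vertex sets of partial matchings with singletons

The vertices of `n K_2` are the elements of `Fin n × Bool`; the edge number `i` joins `(i, false)`
and `(i, true)`.  A member of `members n p s` contains both ends of exactly `p` edges and exactly
one end of exactly `s` further edges.

The proof is a Katona cycle argument.  With `h = s / 2`, put the `2 n` vertices on a cycle so that
position `2 j` holds `(j, false)` and position `2 j + 1` holds `(j - h, true)`.  If `s` is odd, each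
window of `2 p + s` consecutive positions is a member; if `s` is even, each such window that starts
at an even position is a member.
-/

set_option autoImplicit false

open Finset

namespace Pool.Agent.Results.MP_cbbe60_co.MatchingEKR

/-- The edges of `n K_2` both ends of which lie in `S`. -/
def fullEdges {n : ℕ} (S : Finset (Fin n × Bool)) : Finset (Fin n) :=
  Finset.univ.filter fun i => (i, false) ∈ S ∧ (i, true) ∈ S

/-- The edges of `n K_2` exactly one end of which lies in `S`. -/
def singleEdges {n : ℕ} (S : Finset (Fin n × Bool)) : Finset (Fin n) :=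
  Finset.univ.filter fun i => ((i, false) ∈ S ∧ (i, true) ∉ S) ∨ ((i, false) ∉ S ∧ (i, true) ∈ S)

/-- The family `H^(p,s)(n)`: sets which contain both ends of exactly `p` edges of `n K_2` and
exactly one end of exactly `s` further edges. -/
def members (n p s : ℕ) : Finset (Finset (Fin n × Bool)) :=
  Finset.univ.filter fun S => (fullEdges S).card = p ∧ (singleEdges S).card = s

/-! ### The flip and its centralizer -/

/-- The other end of the edge. -/
def flip {n : ℕ} (x : Fin n × Bool) : Fin n × Bool := (x.1, !x.2)

lemma flip_flip {n : ℕ} (x : Fin n × Bool) : flip (flip x) = x := by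
  cases x; simp [flip]

/-- Elements of `S` whose other end is in `S`. -/
def paired {n : ℕ} (S : Finset (Fin n × Bool)) : Finset (Fin n × Bool) :=
  S.filter fun x => flip x ∈ S

/-- Elements of `S` whose other end is not in `S`. -/
def lone {n : ℕ} (S : Finset (Fin n × Bool)) : Finset (Fin n × Bool) :=
  S.filter fun x => flip x ∉ S

lemma mem_paired {n : ℕ} {S : Finset (Fin n × Bool)} {x : Fin n × Bool} :
    x ∈ paired S ↔ x ∈ S ∧ flip x ∈ S := by
  rw [paired, Finset.mem_filter]

lemma mem_lone {n : ℕ} {S : Finset (Fin n × Bool)} {x : Fin n × Bool} :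
    x ∈ lone S ↔ x ∈ S ∧ flip x ∉ S := by
  rw [lone, Finset.mem_filter]

lemma mem_fullEdges {n : ℕ} {S : Finset (Fin n × Bool)} {i : Fin n} :
    i ∈ fullEdges S ↔ (i, false) ∈ S ∧ (i, true) ∈ S := by
  simp [fullEdges]

lemma mem_singleEdges {n : ℕ} {S : Finset (Fin n × Bool)} {i : Fin n} :
    i ∈ singleEdges S ↔
      ((i, false) ∈ S ∧ (i, true) ∉ S) ∨ ((i, false) ∉ S ∧ (i, true) ∈ S) := by
  simp [singleEdges]

lemma card_paired {n : ℕ} (S : Finset (Fin n × Bool)) :
    (paired S).card = 2 * (fullEdges S).card := by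
  have : paired S = fullEdges S ×ˢ (Finset.univ : Finset Bool) := by
    ext ⟨i, b⟩
    rw [mem_paired, Finset.mem_product, mem_fullEdges]
    cases b <;> simp [flip, and_comm]
  rw [this, Finset.card_product]
  simp [mul_comm]

lemma card_lone {n : ℕ} (S : Finset (Fin n × Bool)) :
    (lone S).card = (singleEdges S).card := by
  refine Finset.card_bij (fun x _ => x.1) ?_ ?_ ?_
  · rintro ⟨i, b⟩ hx
    rw [mem_lone] at hx
    rw [mem_singleEdges]
    cases b <;> simp [flip] at hx ⊢ <;> tauto
  · rintro ⟨i, b⟩ hx ⟨j, c⟩ hy hxy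
    simp only at hxy
    subst hxy
    rw [mem_lone] at hx hy
    cases b <;> cases c <;> simp [flip] at hx hy ⊢ <;> tauto
  · intro i hi
    rw [mem_singleEdges] at hi
    rcases hi with h | h
    · exact ⟨(i, false), by rw [mem_lone]; simpa [flip] using h, rfl⟩
    · exact ⟨(i, true), by rw [mem_lone]; simpa [flip, and_comm] using h, rfl⟩

lemma card_eq {n : ℕ} (S : Finset (Fin n × Bool)) :
    S.card = 2 * (fullEdges S).card + (singleEdges S).card := by
  rw [← card_paired, ← card_lone]
  exact (Finset.card_filter_add_card_filter_not (s := S) (fun x => flip x ∈ S)).symm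

lemma mem_members {n p s : ℕ} {S : Finset (Fin n × Bool)} :
    S ∈ members n p s ↔ (fullEdges S).card = p ∧ (singleEdges S).card = s := by
  simp [members]

lemma mem_members_iff {n p s : ℕ} {S : Finset (Fin n × Bool)} :
    S ∈ members n p s ↔ (paired S).card = 2 * p ∧ (lone S).card = s := by
  rw [mem_members, card_paired, card_lone]
  constructor
  · rintro ⟨h1, h2⟩; exact ⟨by rw [h1], h2⟩
  · rintro ⟨h1, h2⟩; exact ⟨by omega, h2⟩

/-- A permutation of the vertices which preserves the edges. -/
def Good {n : ℕ} (g : Equiv.Perm (Fin n × Bool)) : Prop := ∀ x, g (flip x) = flip (g x)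

lemma Good.mul {n : ℕ} {g h : Equiv.Perm (Fin n × Bool)} (hg : Good g) (hh : Good h) :
    Good (g * h) := by
  intro x
  simp [Equiv.Perm.mul_apply, hh x, hg (h x)]

lemma Good.inv {n : ℕ} {g : Equiv.Perm (Fin n × Bool)} (hg : Good g) : Good g⁻¹ := by
  intro x
  apply g.injective
  rw [hg]
  simp

lemma paired_map {n : ℕ} {g : Equiv.Perm (Fin n × Bool)} (hg : Good g)
    (S : Finset (Fin n × Bool)) : paired (S.map g.toEmbedding) = (paired S).map g.toEmbedding := by
  ext x
  simp only [paired, Finset.mem_filter, Finset.mem_map_equiv]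
  have : g.symm (flip x) = flip (g.symm x) := hg.inv x
  rw [this]

lemma lone_map {n : ℕ} {g : Equiv.Perm (Fin n × Bool)} (hg : Good g)
    (S : Finset (Fin n × Bool)) : lone (S.map g.toEmbedding) = (lone S).map g.toEmbedding := by
  ext x
  simp only [lone, Finset.mem_filter, Finset.mem_map_equiv]
  have : g.symm (flip x) = flip (g.symm x) := hg.inv x
  rw [this]

lemma map_mem_members {n p s : ℕ} {g : Equiv.Perm (Fin n × Bool)} (hg : Good g)
    {S : Finset (Fin n × Bool)} (hS : S ∈ members n p s) :
    S.map g.toEmbedding ∈ members n p s := by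
  rw [mem_members_iff] at hS ⊢
  rw [paired_map hg, lone_map hg, Finset.card_map, Finset.card_map]
  exact hS

/-- Number of ends of edge `i` in `S`. -/
def colour {n : ℕ} (S : Finset (Fin n × Bool)) (i : Fin n) : Fin 3 :=
  if (i, false) ∈ S ∧ (i, true) ∈ S then 2
  else if (i, false) ∈ S ∨ (i, true) ∈ S then 1 else 0

lemma card_colour {n p s : ℕ} {S : Finset (Fin n × Bool)} (hS : S ∈ members n p s) (c : Fin 3) :
    (Finset.univ.filter fun i => colour S i = c).card =
      if c = 2 then p else if c = 1 then s else n - (p + s) := by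
  rw [mem_members] at hS
  obtain ⟨h1, h2⟩ := hS
  have e2 : (Finset.univ.filter fun i => colour S i = 2) = fullEdges S := by
    ext i
    rw [mem_fullEdges, Finset.mem_filter]
    by_cases ha : (i, false) ∈ S <;> by_cases hb : (i, true) ∈ S <;>
      simp [colour, ha, hb]
  have e1 : (Finset.univ.filter fun i => colour S i = 1) = singleEdges S := by
    ext i
    rw [mem_singleEdges, Finset.mem_filter]
    by_cases ha : (i, false) ∈ S <;> by_cases hb : (i, true) ∈ S <;>
      simp [colour, ha, hb]
  have tot : ∑ c : Fin 3, (Finset.univ.filter fun i => colour S i = c).card = n := by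
    rw [← Finset.card_eq_sum_card_fiberwise (s := (Finset.univ : Finset (Fin n)))
      (t := (Finset.univ : Finset (Fin 3))) (f := colour S) (fun _ _ => by simp)]
    simp
  rw [Fin.sum_univ_three, e2, e1, h1, h2] at tot
  fin_cases c
  · simp; omega
  · simp [e1, h2]
  · simp [e2, h1]

/-- The edge-preserving permutations act transitively on the members. -/
lemma exists_good_map {n p s : ℕ} {S T : Finset (Fin n × Bool)} (hS : S ∈ members n p s)
    (hT : T ∈ members n p s) :
    ∃ g : Equiv.Perm (Fin n × Bool), Good g ∧ S.map g.toEmbedding = T := by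
  have hc : ∀ c : Fin 3, Nonempty ({i // colour S i = c} ≃ {i // colour T i = c}) := by
    intro c
    refine ⟨Fintype.equivOfCardEq ?_⟩
    rw [Fintype.card_subtype, Fintype.card_subtype, card_colour hS, card_colour hT]
  let e : ∀ c : Fin 3, {i // colour S i = c} ≃ {i // colour T i = c} := fun c => (hc c).some
  let π : Fin n ≃ Fin n := Equiv.ofFiberEquiv e
  have hπ : ∀ i, colour T (π i) = colour S i := fun i => Equiv.ofFiberEquiv_map e i
  let f : Fin n × Bool → Fin n × Bool := fun x =>
    (π x.1, xor (xor x.2 (decide ((x.1, true) ∈ S))) (decide ((π x.1, true) ∈ T)))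
  have finj : Function.Injective f := by
    rintro ⟨i, b⟩ ⟨j, c⟩ hij
    simp only [f, Prod.mk.injEq] at hij
    obtain ⟨h1, h2⟩ := hij
    have h3 : i = j := π.injective h1
    subst h3
    simpa using h2
  let g : Equiv.Perm (Fin n × Bool) := Equiv.ofBijective f ⟨finj, Finite.surjective_of_injective finj⟩
  have hg : ∀ x, g x = f x := fun x => rfl
  refine ⟨g, ?_, ?_⟩
  · rintro ⟨i, b⟩
    rw [hg, hg]
    simp [f, flip]
  · have hsub : S.map g.toEmbedding ⊆ T := by
      intro y hy
      rw [Finset.mem_map] at hy
      obtain ⟨⟨i, b⟩, hx, rfl⟩ := hy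
      have hcol := hπ i
      show g (i, b) ∈ T
      rw [hg]
      simp only [f]
      by_cases ha : (i, false) ∈ S <;> by_cases hb : (i, true) ∈ S <;>
        by_cases hc : (π i, false) ∈ T <;> by_cases hd : (π i, true) ∈ T <;>
        cases b <;> simp_all [colour]
    refine Finset.eq_of_subset_of_card_le hsub ?_
    rw [Finset.card_map, card_eq S, card_eq T]
    rw [mem_members] at hS hT
    rw [hS.1, hS.2, hT.1, hT.2]

/-! ### Katona's lemma for windows on a cycle -/

lemma katona (N R : ℕ) (hR : 0 < R) (hNR : 2 * R ≤ N) (A : Finset ℕ) (hA : ∀ x ∈ A, x < N)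
    (h : ∀ x ∈ A, ∀ y ∈ A, x < y → R ≤ y - x → N - R < y - x) : A.card ≤ R := by
  rcases A.eq_empty_or_nonempty with rfl | hne
  · simp
  set x0 := A.min' hne with hx0
  have hx0A : x0 ∈ A := Finset.min'_mem A hne
  have hmin : ∀ y ∈ A, x0 ≤ y := fun y hy => Finset.min'_le A y hy
  have key : A.card ≤ (Finset.range R).card := by
    refine Finset.card_le_card_of_injOn
      (fun y => if y - x0 < R then y - x0 else y - x0 - (N - R)) ?_ ?_
    · intro y hy
      have hy' : y ∈ A := hy
      have h1 := hmin y hy'
      have h2 := hA y hy'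
      simp only [Finset.coe_range, Set.mem_Iio]
      split_ifs with hlt
      · exact hlt
      · omega
    · intro y hy z hz hyz
      have hy' : y ∈ A := hy
      have hz' : z ∈ A := hz
      have h1 := hmin y hy'
      have h2 := hA y hy'
      have h3 := hmin z hz'
      have h4 := hA z hz'
      have h5 : x0 < y → R ≤ y - x0 → N - R < y - x0 := h x0 hx0A y hy'
      have h6 : x0 < z → R ≤ z - x0 → N - R < z - x0 := h x0 hx0A z hz'
      have h7 := h y hy' z hz'
      have h8 := h z hz' y hy'
      simp only at hyz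
      split_ifs at hyz <;> omega
  simpa using key

/-! ### Averaging over the edge-preserving permutations -/

open Classical in
lemma averaging {n p s : ℕ} (N R : ℕ) (hR : 0 < R) (hNR : 2 * R ≤ N)
    (M : ℕ → Finset (Fin n × Bool)) (hM : ∀ y, M y ∈ members n p s)
    (hdis : ∀ x y, x < y → y < N → R ≤ y - x → y - x ≤ N - R → Disjoint (M x) (M y))
    (F : Finset (Finset (Fin n × Bool))) (hF : F ⊆ members n p s)
    (hint : (F : Set (Finset (Fin n × Bool))).Intersecting) :
    N * F.card ≤ R * (members n p s).card := by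
  set Γ : Finset (Equiv.Perm (Fin n × Bool)) := Finset.univ.filter fun g => Good g with hΓ
  have memΓ : ∀ g, g ∈ Γ ↔ Good g := by intro g; simp [hΓ]
  have hΓpos : 0 < Γ.card := Finset.card_pos.2 ⟨1, by rw [memΓ]; intro x; simp⟩
  set c : ℕ → Finset (Fin n × Bool) → ℕ :=
    fun y S => (Γ.filter fun g => (M y).map g.toEmbedding = S).card with hc
  have h1 : ∀ y, ∀ S ∈ members n p s, ∀ T ∈ members n p s, c y S ≤ c y T := by
    intro y S hS T hT
    obtain ⟨k, hk, hkS⟩ := exists_good_map hS hT
    refine Finset.card_le_card_of_injOn (fun g => k * g) ?_ ?_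
    · intro g hg
      have hg' : g ∈ Γ.filter fun g => (M y).map g.toEmbedding = S := hg
      rw [Finset.mem_filter, memΓ] at hg'
      have : k * g ∈ Γ.filter fun g => (M y).map g.toEmbedding = T := by
        rw [Finset.mem_filter, memΓ]
        refine ⟨hk.mul hg'.1, ?_⟩
        rw [← hkS, ← hg'.2, Finset.map_map]
        rfl
      exact this
    · intro g _ g' _ hgg'
      exact mul_left_cancel hgg'
  have h1' : ∀ y, ∀ S ∈ members n p s, ∀ T ∈ members n p s, c y S = c y T :=
    fun y S hS T hT => le_antisymm (h1 y S hS T hT) (h1 y T hT S hS)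
  have h2 : ∀ y, ∑ S ∈ members n p s, c y S = Γ.card := by
    intro y
    refine (Finset.card_eq_sum_card_fiberwise ?_).symm
    intro g hg
    exact map_mem_members ((memΓ g).1 hg) (hM y)
  have h3 : ∀ y, (members n p s).card * ∑ S ∈ F, c y S = F.card * Γ.card := by
    intro y
    have hS0 := hM 0
    have e1 : ∑ S ∈ F, c y S = F.card * c y (M 0) := by
      rw [Finset.sum_congr rfl (fun S hS => h1' y S (hF hS) (M 0) hS0)]
      simp
    have e2 : Γ.card = (members n p s).card * c y (M 0) := by
      rw [← h2 y, Finset.sum_congr rfl (fun S hS => h1' y S hS (M 0) hS0)]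
      simp
    rw [e1, e2]; ring
  have h4 : ∀ y, ∑ S ∈ F, c y S = (Γ.filter fun g => (M y).map g.toEmbedding ∈ F).card := by
    intro y
    rw [Finset.card_eq_sum_card_fiberwise (f := fun g => (M y).map g.toEmbedding) (t := F)]
    · refine Finset.sum_congr rfl fun S hS => ?_
      simp only [hc]
      congr 1
      ext g
      simp only [Finset.mem_filter]
      constructor
      · rintro ⟨ha, hb⟩; exact ⟨⟨ha, hb ▸ hS⟩, hb⟩
      · rintro ⟨⟨ha, _⟩, hb⟩; exact ⟨ha, hb⟩
    · intro g hg
      have hg' : g ∈ Γ.filter fun g => (M y).map g.toEmbedding ∈ F := hg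
      exact (Finset.mem_filter.1 hg').2
  have h5 : ∑ y ∈ Finset.range N, (Γ.filter fun g => (M y).map g.toEmbedding ∈ F).card =
      ∑ g ∈ Γ, ((Finset.range N).filter fun y => (M y).map g.toEmbedding ∈ F).card := by
    simp only [Finset.card_filter]
    exact Finset.sum_comm
  have h6 : ∀ g ∈ Γ, ((Finset.range N).filter fun y => (M y).map g.toEmbedding ∈ F).card ≤ R := by
    intro g _
    refine katona N R hR hNR _ (fun x hx => ?_) ?_
    · exact Finset.mem_range.1 (Finset.mem_filter.1 hx).1
    · intro x hx y hy hxy hR'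
      rw [Finset.mem_filter, Finset.mem_range] at hx hy
      by_contra hcon
      have hd := hdis x y hxy hy.1 hR' (by omega)
      have hd' : Disjoint ((M x).map g.toEmbedding) ((M y).map g.toEmbedding) :=
        (Finset.disjoint_map _).2 hd
      exact hint hx.2 hy.2 hd'
  have h7 : ∑ y ∈ Finset.range N, ∑ S ∈ F, c y S ≤ Γ.card * R := by
    rw [Finset.sum_congr rfl (fun y _ => h4 y), h5]
    calc _ ≤ ∑ _g ∈ Γ, R := Finset.sum_le_sum h6
      _ = Γ.card * R := by simp
  have h8 : (members n p s).card * ∑ y ∈ Finset.range N, ∑ S ∈ F, c y S =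
      N * (F.card * Γ.card) := by
    rw [Finset.mul_sum, Finset.sum_congr rfl (fun y _ => h3 y)]
    simp
  have h9 : N * F.card * Γ.card ≤ R * (members n p s).card * Γ.card := by
    calc N * F.card * Γ.card = N * (F.card * Γ.card) := by ring
      _ = (members n p s).card * ∑ y ∈ Finset.range N, ∑ S ∈ F, c y S := h8.symm
      _ ≤ (members n p s).card * (Γ.card * R) := Nat.mul_le_mul_left _ h7
      _ = _ := by ring
  exact Nat.le_of_mul_le_mul_right h9 hΓpos

/-! ### The cyclic arrangement -/

/-- Residue of an integer as an edge index. -/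
def cyc (n : ℕ) (hn : 0 < n) (z : ℤ) : Fin n :=
  ⟨(z % n).toNat, by
    have h1 : 0 ≤ z % (n : ℤ) := Int.emod_nonneg _ (by omega)
    have h2 : z % (n : ℤ) < n := Int.emod_lt_of_pos _ (by omega)
    omega⟩

lemma cyc_eq {n : ℕ} (hn : 0 < n) {z w : ℤ} (h : cyc n hn z = cyc n hn w) :
    (n : ℤ) ∣ z - w := by
  have h0 : (z % (n : ℤ)).toNat = (w % (n : ℤ)).toNat := congrArg Fin.val h
  have h1 : 0 ≤ z % (n : ℤ) := Int.emod_nonneg _ (by omega)
  have h2 : 0 ≤ w % (n : ℤ) := Int.emod_nonneg _ (by omega)
  have h3 : z % (n : ℤ) = w % (n : ℤ) := by omega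
  exact Int.ModEq.dvd (a := w) (b := z) h3.symm

lemma cyc_surj {n : ℕ} (hn : 0 < n) (i : Fin n) : cyc n hn (i : ℤ) = i := by
  apply Fin.ext
  have h : ((i : ℕ) : ℤ) % (n : ℤ) = ((i : ℕ) : ℤ) :=
    Int.emod_eq_of_lt (by omega) (by have := i.2; omega)
  show (((i : ℕ) : ℤ) % (n : ℤ)).toNat = (i : ℕ)
  rw [h]; simp

/-- The vertex at position `z` of the cycle. -/
def pos (n : ℕ) (hn : 0 < n) (h : ℤ) (z : ℤ) : Fin n × Bool :=
  if z % 2 = 0 then (cyc n hn (z / 2), false) else (cyc n hn (z / 2 - h), true)

lemma eq_of_dvd_sub {m z w : ℤ} (hm : m ∣ z - w) (h1 : z - w < m) (h2 : -m < z - w) : z = w := by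
  obtain ⟨k, hk⟩ := hm
  have hmpos : 0 < m := by omega
  rcases lt_trichotomy k 0 with hk0 | hk0 | hk0
  · exfalso
    have : m * k ≤ m * (-1) := by
      apply mul_le_mul_of_nonneg_left _ hmpos.le
      omega
    omega
  · subst hk0; simp at hk; omega
  · exfalso
    have : m * 1 ≤ m * k := by
      apply mul_le_mul_of_nonneg_left _ hmpos.le
      omega
    omega

lemma pos_inj {n : ℕ} (hn : 0 < n) {h z w : ℤ} (hzw : pos n hn h z = pos n hn h w)
    (h1 : z - w < 2 * n) (h2 : -(2 * n) < z - w) : z = w := by
  unfold pos at hzw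
  split_ifs at hzw with ha hb hb
  · rw [Prod.mk.injEq] at hzw
    have := eq_of_dvd_sub (cyc_eq hn hzw.1) (by omega) (by omega)
    omega
  · simp at hzw
  · simp at hzw
  · rw [Prod.mk.injEq] at hzw
    have := eq_of_dvd_sub (cyc_eq hn hzw.1) (by omega) (by omega)
    omega

/-- The window of `r` consecutive positions that starts at `y`. -/
noncomputable def window (n : ℕ) (hn : 0 < n) (h : ℤ) (r : ℕ) (y : ℤ) : Finset (Fin n × Bool) :=
  (Finset.Ico y (y + r)).image (pos n hn h)

lemma window_disjoint {n : ℕ} (hn : 0 < n) (h : ℤ) (r : ℕ) {x y : ℤ} (hxy : (r : ℤ) ≤ y - x)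
    (hyx : y - x ≤ 2 * n - r) : Disjoint (window n hn h r x) (window n hn h r y) := by
  rw [Finset.disjoint_left]
  intro v hv hw
  simp only [window, Finset.mem_image, Finset.mem_Ico] at hv hw
  obtain ⟨z, hz, rfl⟩ := hv
  obtain ⟨w, hw, hzw⟩ := hw
  have := pos_inj hn hzw (by omega) (by omega)
  omega

lemma window_card {n : ℕ} (hn : 0 < n) (h : ℤ) (r : ℕ) (hr : r ≤ 2 * n) (y : ℤ) :
    (window n hn h r y).card = r := by
  unfold window
  rw [Finset.card_image_of_injOn]
  · simp
  · intro z hz w hw hzw
    rw [Finset.mem_coe, Finset.mem_Ico] at hz hw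
    exact pos_inj hn hzw (by omega) (by omega)

lemma window_full {n : ℕ} (hn : 0 < n) (h p s : ℕ) (hs : s = 2 * h ∨ s = 2 * h + 1)
    (hps : 2 * p + s ≤ n) (y : ℤ) (hy : s = 2 * h → y % 2 = 0) :
    fullEdges (window n hn h (2 * p + s) y) =
      (Finset.Ico ((y + 1) / 2) ((y + 1) / 2 + p)).image (cyc n hn) := by
  ext i
  rw [mem_fullEdges]
  simp only [window, Finset.mem_image, Finset.mem_Ico]
  constructor
  · rintro ⟨⟨z, hz, hzi⟩, ⟨w, hw, hwi⟩⟩
    have hz2 : z % 2 = 0 := by
      by_contra hcon
      simp [pos, hcon] at hzi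
    have hw2 : ¬ w % 2 = 0 := by
      intro hcon
      simp [pos, hcon] at hwi
    simp only [pos, hz2, if_true, Prod.mk.injEq, and_true] at hzi
    simp only [pos, hw2, if_false, Prod.mk.injEq, and_true] at hwi
    have hzw : cyc n hn (w / 2 - h) = cyc n hn (z / 2) := by rw [hzi, hwi]
    have key : w / 2 - (h : ℤ) = z / 2 := by
      refine eq_of_dvd_sub (cyc_eq hn hzw) ?_ ?_
      · push_cast at hz hw ⊢
        rcases hs with hs | hs
        · have := hy hs
          subst hs; push_cast at hz hw ⊢; omega
        · subst hs; push_cast at hz hw ⊢; omega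
      · push_cast at hz hw ⊢
        rcases hs with hs | hs
        · have := hy hs
          subst hs; push_cast at hz hw ⊢; omega
        · subst hs; push_cast at hz hw ⊢; omega
    refine ⟨z / 2, ?_, hzi⟩
    rcases hs with hs | hs
    · have := hy hs
      subst hs; push_cast at hz hw ⊢; omega
    · subst hs; push_cast at hz hw ⊢; omega
  · rintro ⟨k, hk, rfl⟩
    refine ⟨⟨2 * k, ?_, ?_⟩, ⟨2 * (k + h) + 1, ?_, ?_⟩⟩
    · rcases hs with hs | hs
      · have := hy hs
        subst hs; push_cast; omega
      · subst hs; push_cast; omega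
    · have e1 : (2 * k) % 2 = 0 := by omega
      have e2 : (2 * k) / 2 = k := by omega
      simp [pos, e1, e2]
    · rcases hs with hs | hs
      · have := hy hs
        subst hs; push_cast; omega
      · subst hs; push_cast; omega
    · have e1 : ¬ (2 * (k + (h : ℤ)) + 1) % 2 = 0 := by omega
      have e2 : (2 * (k + (h : ℤ)) + 1) / 2 - h = k := by omega
      unfold pos
      rw [if_neg e1, e2]

lemma window_mem {n : ℕ} (hn : 0 < n) (h p s : ℕ) (hs : s = 2 * h ∨ s = 2 * h + 1)
    (hps : 2 * p + s ≤ n) (y : ℤ) (hy : s = 2 * h → y % 2 = 0) :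
    window n hn h (2 * p + s) y ∈ members n p s := by
  have h1 : (fullEdges (window n hn h (2 * p + s) y)).card = p := by
    rw [window_full hn h p s hs hps y hy, Finset.card_image_of_injOn]
    · simp
    · intro z hz w hw hzw
      rw [Finset.mem_coe, Finset.mem_Ico] at hz hw
      exact eq_of_dvd_sub (cyc_eq hn hzw) (by omega) (by omega)
  have h2 := card_eq (window n hn h (2 * p + s) y)
  rw [window_card hn h (2 * p + s) (by omega) y, h1] at h2
  rw [mem_members]
  exact ⟨h1, by omega⟩

/-- The bound: an intersecting subfamily has at most the fraction `(2 p + s) / (2 n)` of all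
members. -/
lemma bound (n p s : ℕ) (hps : 2 * p + s ≤ n) (F : Finset (Finset (Fin n × Bool)))
    (hF : F ⊆ members n p s) (hint : (F : Set (Finset (Fin n × Bool))).Intersecting) :
    2 * n * F.card ≤ (2 * p + s) * (members n p s).card := by
  rcases Nat.eq_zero_or_pos (2 * p + s) with h0 | hpos
  · -- all members are empty, so `F` is empty
    have : F = ∅ := by
      rw [Finset.eq_empty_iff_forall_notMem]
      intro S hS
      have h1 := mem_members.1 (hF hS)
      have h2 := card_eq S
      have h3 : S = ∅ := by rw [← Finset.card_eq_zero]; omega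
      exact hint hS hS (by rw [h3]; exact Finset.disjoint_empty_left _)
    simp [this]
  · have hn : 0 < n := by omega
    obtain ⟨h, hs⟩ : ∃ h, s = 2 * h ∨ s = 2 * h + 1 := ⟨s / 2, by omega⟩
    rcases hs with hs | hs
    · have key := averaging (n := n) (p := p) (s := s) n (p + h) (by omega) (by omega)
        (fun y => window n hn h (2 * p + s) (2 * (y : ℤ)))
        (fun y => window_mem hn h p s (Or.inl hs) hps _ (fun _ => by omega))
        (fun x y hxy hyN h1 h2 => window_disjoint hn h (2 * p + s)
          (by push_cast; omega) (by push_cast; omega)) F hF hint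
      have e : 2 * p + s = 2 * (p + h) := by omega
      rw [e]
      calc 2 * n * F.card = 2 * (n * F.card) := by ring
        _ ≤ 2 * ((p + h) * (members n p s).card) := Nat.mul_le_mul_left _ key
        _ = _ := by ring
    · exact averaging (n := n) (p := p) (s := s) (2 * n) (2 * p + s) (by omega) (by omega)
        (fun y => window n hn h (2 * p + s) (y : ℤ))
        (fun y => window_mem hn h p s (Or.inr hs) hps _ (fun h' => by omega))
        (fun x y hxy hyN h1 h2 => window_disjoint hn h (2 * p + s)
          (by push_cast; omega) (by push_cast; omega)) F hF hint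

/-- For all `p`, `s` and all `n ≥ 2 p + s`, each intersecting subfamily of `H^(p,s)(n)` has at most
as many members as a largest star: the family is `(2 p + s)`-EKR. -/
theorem result (n p s : ℕ) (hps : 2 * p + s ≤ n) (F : Finset (Finset (Fin n × Bool)))
    (hF : F ⊆ members n p s) (hint : (F : Set (Finset (Fin n × Bool))).Intersecting) :
    F.card ≤ Finset.univ.sup fun x : Fin n × Bool =>
      ((members n p s).filter fun S => x ∈ S).card := by
  have hb := bound n p s hps F hF hint
  rcases Nat.eq_zero_or_pos n with hn | hn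
  · have : F = ∅ := by
      rw [Finset.eq_empty_iff_forall_notMem]
      intro S hS
      have h1 := mem_members.1 (hF hS)
      have h2 := card_eq S
      have h3 : S = ∅ := by rw [← Finset.card_eq_zero]; omega
      exact hint hS hS (by rw [h3]; exact Finset.disjoint_empty_left _)
    simp [this]
  · set m := Finset.univ.sup fun x : Fin n × Bool =>
      ((members n p s).filter fun S => x ∈ S).card with hm
    have h1 : ∀ x : Fin n × Bool, ((members n p s).filter fun S => x ∈ S).card ≤ m :=
      fun x => Finset.le_sup (f := fun x : Fin n × Bool =>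
        ((members n p s).filter fun S => x ∈ S).card) (Finset.mem_univ x)
    have h2 : ∑ x : Fin n × Bool, ((members n p s).filter fun S => x ∈ S).card =
        (2 * p + s) * (members n p s).card := by
      simp only [Finset.card_filter]
      rw [Finset.sum_comm]
      rw [Finset.sum_congr rfl (g := fun _ => 2 * p + s)]
      · simp [mul_comm]
      · intro S hS
        have h3 := mem_members.1 hS
        have h4 := card_eq S
        rw [h3.1, h3.2] at h4
        rw [← h4]
        simp
    have h3 : ∑ x : Fin n × Bool, ((members n p s).filter fun S => x ∈ S).card ≤ 2 * n * m := by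
      calc _ ≤ ∑ _x : Fin n × Bool, m := Finset.sum_le_sum fun x _ => h1 x
        _ = 2 * n * m := by simp [mul_comm]
    rw [h2] at h3
    have h4 : 2 * n * F.card ≤ 2 * n * m := hb.trans h3
    exact Nat.le_of_mul_le_mul_left h4 (by omega)

end Pool.Agent.Results.MP_cbbe60_co.MatchingEKR
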